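import Pool.Agent.N791.CT.E

/-!
The quantitative Hypothesis H for systems of `k` polynomials of arbitrary degrees, with power savings in the
logarithm, for almost all vectors of constant terms: the nonconstant parts `F_1, ..., F_k` are fixed and arbitrary,
and only the constant terms `a_i ≤ A_i`, `A_i` of the order of magnitude of `x ^ deg F_i`, vary. The fixed
polynomial `x` may be added to the system (prime values at prime arguments). The formula holds for all initial
segments of the range `n ≤ x` at once.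
-/

set_option autoImplicit false

namespace Pool.Agent.Results.MP_51e72e_nt.AllConstantTerms

open Finset Polynomial

open Classical in
/-- `π_H(y)`: the number of `1 ≤ n ≤ y` for which `|f(n)|` is prime for every `f ∈ H`. -/
noncomputable def primeCount (H : Finset ℤ[X]) (y : ℕ) : ℕ :=
  ((Icc 1 y).filter (fun n : ℕ => ∀ f ∈ H, (f.eval (n : ℤ)).natAbs.Prime)).card

open Classical in
/-- `ω_H(p)`: the number of `n ∈ {1, …, p}` with `∏ f(n) ≡ 0 (mod p)`, the product over `f ∈ H`. -/
noncomputable def omega (H : Finset ℤ[X]) (p : ℕ) : ℕ :=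
  ((Icc 1 p).filter (fun n : ℕ => (p : ℤ) ∣ ∏ f ∈ H, f.eval (n : ℤ))).card

/-- `C_H(z)`: the part of the product `C_H` over the primes `p ≤ z`. -/
noncomputable def eulerProd (H : Finset ℤ[X]) (z : ℕ) : ℝ :=
  ∏ p ∈ (Icc 1 z).filter Nat.Prime, (1 - (omega H p : ℝ) / p) / (1 - 1 / (p : ℝ)) ^ H.card

open Classical in
/-- `L_H(y)`: the sum of `1 / ∏ log |f(n)|` over the `1 ≤ n ≤ y` with `|f(n)| ≥ 2` for every `f ∈ H`. -/
noncomputable def logSum (H : Finset ℤ[X]) (y : ℕ) : ℝ :=
  ∑ n ∈ (Icc 1 y).filter (fun n : ℕ => ∀ f ∈ H, 2 ≤ |f.eval (n : ℤ)|),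
    1 / ∏ f ∈ H, Real.log |((f.eval (n : ℤ) : ℤ) : ℝ)|

open Classical in
/-- The set `H` that consists of the members of `P` and of the polynomials `F_i + a_i`. -/
noncomputable def family {k : ℕ} (P : Finset ℤ[X]) (F : Fin k → ℤ[X]) (a : Fin k → ℕ) : Finset ℤ[X] :=
  P ∪ univ.image (fun i => F i + C (a i : ℤ))

/-- The conclusion for one vector `a` of constant terms, `H = family P F a`: the polynomials are distinct; for all
`y ≤ x` the number `π_H(y)` is `C_H(z) L_H(y)` up to an error `x / log ^ U x`; and if `H` has no fixed prime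
divisor, then for all `y` with `x / log ^ U x ≤ y ≤ x` the relative error is at most `1 / log ^ U x`. -/
def Good {k : ℕ} (P : Finset ℤ[X]) (F : Fin k → ℤ[X]) (U x z : ℕ) (a : Fin k → ℕ) : Prop :=
  (family P F a).card = P.card + k ∧
  (∀ y : ℕ, y ≤ x → |(primeCount (family P F a) y : ℝ) - eulerProd (family P F a) z * logSum (family P F a) y| ≤
    x / Real.log x ^ U) ∧
  ((∀ p : ℕ, p.Prime → omega (family P F a) p < p) → ∀ y : ℕ, (x : ℝ) / Real.log x ^ U ≤ y → y ≤ x →
    |(primeCount (family P F a) y : ℝ) - eulerProd (family P F a) z * logSum (family P F a) y| ≤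
      eulerProd (family P F a) z * logSum (family P F a) y / Real.log x ^ U)

open Classical in
/-- Let `F_1, ..., F_k` be nonconstant integer polynomials with positive leading coefficients, `P = ∅` or `P = {X}`,
`B ≥ 1` and `U`. There is `B₀` such that for all `E` and all large `x`: if every `A_i` is within a factor `B` of
`x ^ deg F_i` and `log ^ B₀ x ≤ z ≤ log ^ E x`, then `Good` holds for all vectors `a`, `1 ≤ a_i ≤ A_i`, with at most
`A_1 ... A_k / log ^ U x` exceptions. -/
theorem result (k : ℕ) (F : Fin k → ℤ[X]) (hF : ∀ i, 1 ≤ (F i).natDegree ∧ 0 < (F i).leadingCoeff)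
    (P : Finset ℤ[X]) (hP : P ⊆ {X}) (B : ℕ) (hB : 1 ≤ B) (U : ℕ) :
    ∃ B₀ : ℕ, ∀ E : ℕ, ∃ x₀ : ℕ, ∀ x : ℕ, x₀ ≤ x → ∀ A : Fin k → ℕ,
      (∀ i, A i ≤ B * x ^ (F i).natDegree ∧ x ^ (F i).natDegree ≤ B * A i) →
      ∀ z : ℕ, Real.log x ^ B₀ ≤ z → (z : ℝ) ≤ Real.log x ^ E →
      (((Fintype.piFinset (fun i => Icc 1 (A i))).filter (fun a => ¬ Good P F U x z a)).card : ℝ) ≤
        (∏ i, (A i : ℝ)) / Real.log x ^ U := by
  obtain ⟨B₀, h⟩ := Pool.Agent.N791.CT.main F (fun i => (hF i).1) (fun i => (hF i).2) P hP B hB U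
  refine ⟨B₀, fun E => ?_⟩
  obtain ⟨x₀, h0⟩ := h E
  refine ⟨x₀, fun x hx A hA z hz1 hz2 => ?_⟩
  obtain ⟨S, hS1, hS2⟩ := h0 x hx A hA z hz1 hz2
  refine le_trans ?_ hS1
  have : ((Fintype.piFinset (fun i => Icc 1 (A i))).filter (fun a => ¬ Good P F U x z a)) ⊆ S := by
    intro a ha
    rw [mem_filter] at ha
    by_contra haS
    exact ha.2 (hS2 a ha.1 haS)
  exact_mod_cast card_le_card this

end Pool.Agent.Results.MP_51e72e_nt.AllConstantTerms
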