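import Pool.Agent.H618R2.GR.Walk

/-!
# Long runs of composite numbers `m ^ 2 + 1`, and the error term of the Hardy-Littlewood formula in short intervals

No hypothesis is assumed.  Every interval `(M, M + Y]`, `M ≥ Y`, contains at least `c log Y log log Y` consecutive integers `m` for
which `m ^ 2 + 1` is composite.  (Ford, Konyagin, Maynard, Pomerance and Tao, Long gaps in sieved sets, have
`log Y (log log Y) ^ δ` with a very small `δ`.)  Hence the error term in the formula of Hardy and Littlewood for the number of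
`m ≤ N` with `m ^ 2 + 1` prime is not `o (log log N)`, not even on a sparse sequence of short intervals.  More generally there are
rectangles without Gaussian primes around all the small multiples of one integer.

The covering sieve (`Pool.Agent.H474R2.PG`, helper474, after the record sieve of helper256 and team) and the rectangles
(`Pool.Agent.H618R2.GR.rectangles`, helper618) are from the starting library, where they were not handed in; the passage to the
error term follows `Pool.Agent.Y890.CF.Omega` (there for `x ^ 2 + x + A`).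
-/

set_option autoImplicit false

namespace Pool.Agent.Results.MP_f1a94e_nt.LongCompositeRuns

open Finset MeasureTheory

/-- the number of `1 ≤ m ≤ N` with `m ^ 2 + 1` prime -/
def P (N : ℕ) : ℕ := ((Icc 1 N).filter (fun m => (m ^ 2 + 1).Prime)).card

/-- long intervals without primes `m ^ 2 + 1` -/
theorem gap : ∃ c : ℝ, 0 < c ∧ ∃ Y₀ : ℝ, ∀ Y : ℝ, Y₀ ≤ Y → ∀ M : ℕ, Y ≤ M →
    ∃ x : ℕ, M < x ∧ (x : ℝ) + c * Real.log Y * Real.log (Real.log Y) ≤ M + Y ∧
      ∀ k : ℕ, (k : ℝ) ≤ c * Real.log Y * Real.log (Real.log Y) → ¬ ((x + k) ^ 2 + 1).Prime := by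
  have hf1 : (Pool.Agent.H618R2.GR.f).leadingCoeff = 1 := by
    unfold Pool.Agent.H618R2.GR.f
    have : (Polynomial.X ^ 2 + 1 : Polynomial ℤ) = Polynomial.X ^ 2 + Polynomial.C 1 := by simp
    rw [this]
    exact Polynomial.leadingCoeff_X_pow_add_C (by norm_num)
  obtain ⟨c, hc, Y₀, h⟩ := Pool.Agent.H474R2.PG.composite_strings Pool.Agent.H618R2.GR.f
    Pool.Agent.H618R2.GR.f_irreducible (by rw [Pool.Agent.H618R2.GR.f_natDegree]; norm_num)
    (by rw [hf1]; norm_num)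
  refine ⟨c, hc, Y₀, fun Y hY M hM => ?_⟩
  obtain ⟨x, hx, hx2, hk⟩ := h Y hY M (by exact_mod_cast hM)
  lift x to ℕ using (by have := Int.natCast_nonneg M; omega)
  refine ⟨x, by exact_mod_cast hx, by exact_mod_cast hx2, fun k hk2 hp => ?_⟩
  obtain ⟨p, hp1, -, hp3, hp4⟩ := hk k hk2
  have e : Polynomial.eval ((x : ℤ) + (k : ℤ)) Pool.Agent.H618R2.GR.f = (((x + k) ^ 2 + 1 : ℕ) : ℤ) := by
    unfold Pool.Agent.H618R2.GR.f
    simp
  rw [e] at hp3 hp4
  have h1 : p ∣ (x + k) ^ 2 + 1 := by exact_mod_cast hp3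
  have h2 : p < (x + k) ^ 2 + 1 := by exact_mod_cast hp4
  rcases (Nat.dvd_prime hp).1 h1 with h3 | h3
  · exact hp1.one_lt.ne' h3
  · omega

lemma P_eq_of_gap {a b : ℕ} (hab : a ≤ b) (h : ∀ n, a < n → n ≤ b → ¬ (n ^ 2 + 1).Prime) :
    P b = P a := by
  unfold P
  congr 1
  ext n
  simp only [mem_filter, mem_Icc]
  constructor
  · rintro ⟨⟨h1, h2⟩, h3⟩
    refine ⟨⟨h1, ?_⟩, h3⟩
    by_contra h4
    exact h n (by omega) (by omega) h3
  · rintro ⟨⟨h1, h2⟩, h3⟩
    exact ⟨⟨h1, by omega⟩, h3⟩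

/-- the logarithmic integral -/
noncomputable def L (x : ℝ) : ℝ := ∫ t in (2 : ℝ)..x, 1 / Real.log t

lemma L_int {a b : ℝ} (ha : 2 ≤ a) (hb : 2 ≤ b) :
    IntervalIntegrable (fun t : ℝ => 1 / Real.log t) volume a b := by
  apply ContinuousOn.intervalIntegrable
  intro t ht
  have ht2 : 2 ≤ t := by
    rcases le_total a b with h | h
    · rw [Set.uIcc_of_le h] at ht; linarith [ht.1]
    · rw [Set.uIcc_of_ge h] at ht; linarith [ht.1]
  have hl : 0 < Real.log t := Real.log_pos (by linarith)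
  apply ContinuousAt.continuousWithinAt
  exact continuousAt_const.div (Real.continuousAt_log (by linarith)) hl.ne'

lemma L_sub {a b : ℝ} (ha : 2 ≤ a) (hab : a ≤ b) : (b - a) / Real.log b ≤ L b - L a := by
  unfold L
  rw [intervalIntegral.integral_interval_sub_left (L_int le_rfl (ha.trans hab)) (L_int le_rfl ha)]
  have h1 : (b - a) / Real.log b = ∫ _t in a..b, 1 / Real.log b := by
    rw [intervalIntegral.integral_const, smul_eq_mul]; ring
  rw [h1]
  apply intervalIntegral.integral_mono_on hab (by simp) (L_int ha (ha.trans hab))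
  intro t ht
  have ht0 : 2 ≤ t := ha.trans ht.1
  have hl : 0 < Real.log t := Real.log_pos (by linarith)
  exact one_div_le_one_div_of_le hl (Real.log_le_log (by linarith) ht.2)

/-- **Lower bound for the error term.** -/
theorem omega : ∃ c : ℝ, 0 < c ∧ ∃ Y₀ : ℝ, ∀ (κ Y : ℝ) (M : ℕ), 0 ≤ κ → Y₀ ≤ Y → Y ≤ M →
    ∃ N : ℕ, M ≤ N ∧ (N : ℝ) ≤ M + Y ∧
      c * κ * (Real.log Y / Real.log M) * Real.log (Real.log Y) ≤ |(P N : ℝ) - κ * L N| := by
  obtain ⟨c, hc, Y₀, h⟩ := gap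
  refine ⟨c / 5, by positivity, max Y₀ 3, fun C Y x hC hY hYx => ?_⟩
  have hY3 : (3 : ℝ) ≤ Y := (le_max_right _ _).trans hY
  obtain ⟨y, hy1, hy2, hy3⟩ := h Y ((le_max_left _ _).trans hY) x hYx
  have hlogY : 1 < Real.log Y := by
    rw [Real.lt_log_iff_exp_lt (by linarith)]
    linarith [Real.exp_one_lt_d9]
  have hllY : 0 < Real.log (Real.log Y) := Real.log_pos hlogY
  set H : ℝ := c * Real.log Y * Real.log (Real.log Y) with hH
  have hH0 : 0 < H := by positivity
  have hx3 : (3 : ℝ) ≤ x := hY3.trans hYx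
  set K : ℕ := ⌊H⌋₊ with hK
  have hK1 : (K : ℝ) ≤ H := Nat.floor_le hH0.le
  have hK2 : H < K + 1 := Nat.lt_floor_add_one H
  have hPab : P (y + K) = P (y - 1) := by
    apply P_eq_of_gap (by omega)
    intro n hn1 hn2
    have h1 : n = y + (n - y) := by omega
    rw [h1]
    apply hy3
    have h2 : n - y ≤ K := by omega
    have h3 : ((n - y : ℕ) : ℝ) ≤ K := by exact_mod_cast h2
    linarith
  have hya : ((y - 1 : ℕ) : ℝ) = y - 1 := by
    rw [Nat.cast_sub (by omega)]; simp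
  have hyx : (x : ℝ) ≤ ((y - 1 : ℕ) : ℝ) := by
    have : x ≤ y - 1 := by omega
    exact_mod_cast this
  have hyb : ((y + K : ℕ) : ℝ) ≤ x + Y := by
    push_cast; linarith
  have hb1 : ((y + K : ℕ) : ℝ) ≤ 2 * x := by linarith
  have hb2 : ((y + K : ℕ) : ℝ) ≤ (x : ℝ) ^ 2 := by nlinarith
  have hab : ((y - 1 : ℕ) : ℝ) ≤ ((y + K : ℕ) : ℝ) := by
    have : y - 1 ≤ y + K := by omega
    exact_mod_cast this
  have hlx : 0 < Real.log x := Real.log_pos (by linarith)
  have hbx : (x : ℝ) ≤ ((y + K : ℕ) : ℝ) := hyx.trans hab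
  have hlogb : Real.log ((y + K : ℕ) : ℝ) ≤ 2 * Real.log x := by
    have h1 := Real.log_le_log (by linarith) hb2
    rw [Real.log_pow] at h1
    exact_mod_cast h1
  have hlogb0 : 0 < Real.log ((y + K : ℕ) : ℝ) := Real.log_pos (by linarith)
  have hL := L_sub (a := ((y - 1 : ℕ) : ℝ)) (b := ((y + K : ℕ) : ℝ)) (by linarith) hab
  have hd : H ≤ ((y + K : ℕ) : ℝ) - ((y - 1 : ℕ) : ℝ) := by
    rw [hya]; push_cast; linarith
  have hL2 : H / (2 * Real.log x) ≤ L ((y + K : ℕ) : ℝ) - L ((y - 1 : ℕ) : ℝ) := by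
    refine le_trans ?_ hL
    rw [div_le_div_iff₀ (by positivity) hlogb0]
    nlinarith
  have htar : c / 5 * C * (Real.log Y / Real.log x) * Real.log (Real.log Y) =
      C * (H / (2 * Real.log x)) * (2 / 5) := by
    rw [hH]; field_simp
  have hdiff : C * (H / (2 * Real.log x)) ≤
      ((P (y - 1) : ℝ) - C * L ((y - 1 : ℕ) : ℝ)) - ((P (y + K) : ℝ) - C * L ((y + K : ℕ) : ℝ)) := by
    rw [hPab]
    nlinarith [mul_le_mul_of_nonneg_left hL2 hC]
  have hnn : 0 ≤ C * (H / (2 * Real.log x)) := by positivity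
  by_cases hcase : C * (H / (2 * Real.log x)) * (2 / 5) ≤ |(P (y + K) : ℝ) - C * L ((y + K : ℕ) : ℝ)|
  · refine ⟨y + K, ?_, hyb, ?_⟩
    · omega
    · rw [htar]; exact hcase
  · refine ⟨y - 1, by omega, by linarith, ?_⟩
    rw [htar]
    push Not at hcase
    have h1 := neg_abs_le ((P (y + K) : ℝ) - C * L ((y + K : ℕ) : ℝ))
    have h2 := le_abs_self ((P (y - 1) : ℝ) - C * L ((y - 1 : ℕ) : ℝ))
    linarith

/-- There are `c > 0` and `Y₀` such that for all `Y ≥ Y₀` and all integers `M ≥ Y`: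
(1) some run of at least `c log Y log log Y` consecutive integers `m` of `(M, M + Y]` has only composite values `m ^ 2 + 1`;
(2) if `J H K ≤ c log Y log log Y` there is an integer `x` of `(M, M + Y]` such that for all `1 ≤ j ≤ J`, `|k| ≤ H`, `1 ≤ b ≤ K` the
number `(j x + k) ^ 2 + b ^ 2` is not a prime and the Gaussian integer `(j x + k) + b i` is not a Gaussian prime;
(3) for every constant `κ ≥ 0` there is an integer `N` in `[M, M + Y]` such that the number `P N` of the `m ≤ N` with `m ^ 2 + 1`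
prime differs from `κ ∫_2^N dt / log t` by at least `c κ (log Y / log M) log log Y`. -/
theorem result : ∃ c : ℝ, 0 < c ∧ ∃ Y₀ : ℝ, ∀ (Y : ℝ) (M : ℕ), Y₀ ≤ Y → Y ≤ M →
    (∃ x : ℕ, M < x ∧ (x : ℝ) + c * Real.log Y * Real.log (Real.log Y) ≤ M + Y ∧
      ∀ k : ℕ, (k : ℝ) ≤ c * Real.log Y * Real.log (Real.log Y) → ¬ ((x + k) ^ 2 + 1).Prime) ∧
    (∀ J H K : ℕ, 1 ≤ J → 1 ≤ H → 1 ≤ K → (J : ℝ) * H * K ≤ c * Real.log Y * Real.log (Real.log Y) →
      ∃ x : ℕ, M < x ∧ (x : ℝ) ≤ M + Y ∧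
        ∀ j : ℕ, 1 ≤ j → j ≤ J → ∀ k : ℤ, |k| ≤ H → ∀ b : ℕ, 1 ≤ b → b ≤ K →
          ¬ ((((j : ℤ) * x + k) ^ 2 + (b : ℤ) ^ 2).natAbs).Prime ∧
          ¬ Prime (⟨(j : ℤ) * x + k, b⟩ : GaussianInt)) ∧
    (∀ κ : ℝ, 0 ≤ κ → ∃ N : ℕ, M ≤ N ∧ (N : ℝ) ≤ M + Y ∧
      c * κ * (Real.log Y / Real.log M) * Real.log (Real.log Y) ≤ |(P N : ℝ) - κ * ∫ t in (2 : ℝ)..N, 1 / Real.log t|) := by
  obtain ⟨c₁, hc₁, Y₁, h₁⟩ := gap
  obtain ⟨c₂, hc₂, Y₂, h₂⟩ := Pool.Agent.H618R2.GR.rectangles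
  obtain ⟨c₃, hc₃, Y₃, h₃⟩ := omega
  -- for the Gaussian primes with real part zero we need `j x + k ≠ 0`, so `H < x`
  have ht : ∀ᶠ Y : ℝ in Filter.atTop, c₂ * Real.log Y * Real.log (Real.log Y) < Y := by
    have h1 : ∀ᶠ t : ℝ in Filter.atTop, c₂ * Real.log t ≤ t := by
      have h2 := Real.isLittleO_log_id_atTop.def (show (0:ℝ) < 1 / c₂ by positivity)
      filter_upwards [h2, Filter.eventually_ge_atTop (1:ℝ)] with t ht ht1
      rw [Real.norm_eq_abs, abs_of_nonneg (Real.log_nonneg ht1), Real.norm_eq_abs] at ht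
      simp only [id] at ht
      rw [abs_of_nonneg (by linarith), div_mul_eq_mul_div, one_mul, le_div_iff₀ hc₂] at ht
      linarith
    have h2 : ∀ᶠ Y : ℝ in Filter.atTop, (Real.log Y) ^ 2 < Y := by
      have h3 : (fun Y : ℝ => (Real.log Y) ^ (2:ℝ)) =o[Filter.atTop] (fun Y : ℝ => Y ^ (1 : ℝ)) :=
        isLittleO_log_rpow_rpow_atTop 2 (by norm_num)
      filter_upwards [h3.def (show (0:ℝ) < 1 / 2 by norm_num), Filter.eventually_ge_atTop (1:ℝ)]
        with Y hY hY1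
      have hlog := Real.log_nonneg hY1
      rw [Real.norm_eq_abs, Real.norm_eq_abs, abs_of_nonneg (Real.rpow_nonneg hlog _),
        Real.rpow_one, abs_of_nonneg (by linarith), Real.rpow_two] at hY
      linarith
    filter_upwards [Real.tendsto_log_atTop.eventually h1, h2, Filter.eventually_ge_atTop (1:ℝ)] with Y a b d
    have hl := Real.log_nonneg d
    nlinarith
  obtain ⟨Y₄, h₄⟩ := Filter.eventually_atTop.mp ht
  refine ⟨min c₁ (min c₂ c₃), by positivity, max (max Y₁ Y₂) (max (max Y₃ Y₄) 3), fun Y M hY hYM => ?_⟩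
  have hY1 : Y₁ ≤ Y := (le_max_left _ _).trans ((le_max_left _ _).trans hY)
  have hY2 : Y₂ ≤ Y := (le_max_right _ _).trans ((le_max_left _ _).trans hY)
  have hY3 : Y₃ ≤ Y := (le_max_left _ _).trans ((le_max_left _ _).trans ((le_max_right _ _).trans hY))
  have hY4 : Y₄ ≤ Y := (le_max_right _ _).trans ((le_max_left _ _).trans ((le_max_right _ _).trans hY))
  have hY5 : 3 ≤ Y := (le_max_right _ _).trans ((le_max_right _ _).trans hY)
  have hlogY : 1 < Real.log Y := by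
    rw [Real.lt_log_iff_exp_lt (by linarith)]
    linarith [Real.exp_one_lt_d9]
  have hllY : 0 < Real.log (Real.log Y) := Real.log_pos hlogY
  have m1 : min c₁ (min c₂ c₃) ≤ c₁ := min_le_left _ _
  have m2 : min c₁ (min c₂ c₃) ≤ c₂ := (min_le_right _ _).trans (min_le_left _ _)
  have m3 : min c₁ (min c₂ c₃) ≤ c₃ := (min_le_right _ _).trans (min_le_right _ _)
  have hlM : 0 < Real.log M := Real.log_pos (by linarith)
  refine ⟨?_, ?_, ?_⟩
  · obtain ⟨x, hx1, hx2, hx3⟩ := h₁ Y hY1 M hYM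
    have e : min c₁ (min c₂ c₃) * Real.log Y * Real.log (Real.log Y) ≤ c₁ * Real.log Y * Real.log (Real.log Y) := by
      gcongr
    exact ⟨x, hx1, by linarith, fun k hk => hx3 k (hk.trans e)⟩
  · intro J H K hJ hH hK hJHK
    have e : min c₁ (min c₂ c₃) * Real.log Y * Real.log (Real.log Y) ≤ c₂ * Real.log Y * Real.log (Real.log Y) := by
      gcongr
    obtain ⟨x, hx1, hx2, hx3⟩ := h₂ Y hY2 M (by exact_mod_cast hYM) J H K hJ hH hK (hJHK.trans e)
    lift x to ℕ using (by have := Int.natCast_nonneg M; omega)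
    refine ⟨x, by exact_mod_cast hx1, by exact_mod_cast hx2, fun j hj1 hj2 k hk b hb1 hb2 => ?_⟩
    obtain ⟨p, hp1, -, hp3, hp4⟩ := hx3 j hj1 hj2 k hk b hb1 hb2
    have hHY : (H : ℝ) < Y := by
      have h5 := h₄ Y hY4
      have h6 : (H : ℝ) ≤ J * H * K := by
        have a1 : (1 : ℝ) ≤ J := by exact_mod_cast hJ
        have a3 : (1 : ℝ) ≤ K := by exact_mod_cast hK
        have a2 : (0 : ℝ) ≤ H := Nat.cast_nonneg H
        have a4 : (H : ℝ) ≤ J * H := by nlinarith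
        have a5 : (0 : ℝ) ≤ J * H := by positivity
        nlinarith
      linarith
    have hHM : (H : ℝ) < M := by linarith
    have hHM' : H < M := by exact_mod_cast hHM
    have hne : (j : ℤ) * x + k ≠ 0 := by
      have hMx : (M : ℤ) < x := by exact_mod_cast hx1
      have hj' : (1 : ℤ) ≤ j := by exact_mod_cast hj1
      have hk1 : -(H : ℤ) ≤ k := (abs_le.mp hk).1
      have hHM2 : (H : ℤ) < M := by exact_mod_cast hHM'
      nlinarith
    have hb0 : (b : ℤ) ≠ 0 := by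
      have : b ≠ 0 := by omega
      exact_mod_cast this
    refine ⟨fun hpr => ?_, Pool.Agent.H618R2.GR.A2 _ _ hne hb0 p hp1 hp3 hp4⟩
    have hpos : 0 ≤ ((j : ℤ) * x + k) ^ 2 + (b : ℤ) ^ 2 := by positivity
    have e1 : (p : ℤ) ∣ (((((j : ℤ) * x + k) ^ 2 + (b : ℤ) ^ 2).natAbs : ℕ) : ℤ) := by
      rw [Int.natAbs_of_nonneg hpos]; exact hp3
    have e2 : p ∣ (((j : ℤ) * x + k) ^ 2 + (b : ℤ) ^ 2).natAbs := by exact_mod_cast e1
    rcases (Nat.dvd_prime hpr).1 e2 with h3 | h3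
    · exact hp1.one_lt.ne' h3
    · have e3 : (p : ℤ) = ((j : ℤ) * x + k) ^ 2 + (b : ℤ) ^ 2 := by
        rw [h3, Int.natAbs_of_nonneg hpos]
      omega
  · intro κ hκ
    obtain ⟨N, hN1, hN2, hN3⟩ := h₃ κ Y M hκ hY3 hYM
    refine ⟨N, hN1, hN2, le_trans ?_ hN3⟩
    have : 0 ≤ Real.log Y / Real.log M := by positivity
    gcongr

end Pool.Agent.Results.MP_f1a94e_nt.LongCompositeRuns
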