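import Mathlib
import Pool.Agent.N791.C2.Cor

/-!
# The functions of Liouville and Moebius at `a n² + b n + c` for almost all `c ≤ x^θ`, `θ > 1/2`

The problem asks for primes among the numbers `3 k² + 3 k + 1` (the differences of consecutive cubes). Here `a > 0` and
`b` (for example `a = b = 3`) are fixed and the constant term varies in a short range. So far no cancellation was known for families of constant terms shorter than
the range of the arguments. For `x^(1/2+ε) ≤ C ≤ x` and almost all `c ≤ C`, both functions cancel on the arguments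
`n ≤ x` in any progression at which the value has a prime factor in `(s, t]`, where
`s ≥ max (x^(3/2+ε) / C, x^(2/3+ε))` and `t ≤ x^(1-ε)`; these arguments have a positive density, which is computed.
Hence each sign of the Liouville function has a positive proportion for almost all `c ≤ x^θ`, for every `θ > 1/2`.

Proof. A value `N` with `ω ≥ 1` prime factors in `(s, t]` has one or two of them, and
`λ(N) = - ∑_{p ∣ N} λ(N / p) (1 - ω(N / p) / 2)`. The cofactors are treated with the estimate of type II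
of the project `N792` (the dispersion method with the double large sieve and the spacing of the numbers `h √k`), which
needs the theorem of Siegel-Walfisz-Davenport for `λ`; the same identity without `λ` gives the number of the arguments.
-/

set_option autoImplicit false

namespace Pool.Agent.Results.MP_22d6bb_nt.QuadraticsSmallConstants

open Finset

/-- The Liouville function on the integers, with the value `0` at `0`. -/
def lam (m : ℤ) : ℤ := if m = 0 then 0 else (-1) ^ ArithmeticFunction.cardFactors m.natAbs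

/-- The Moebius function on the integers, `μ(-m) = μ(m)` and `μ(0) = 0`. -/
def mob (m : ℤ) : ℤ := ArithmeticFunction.moebius m.natAbs

/-- The value of the polynomial. -/
def val (a b c : ℤ) (n : ℕ) : ℤ := a * (n : ℤ) ^ 2 + b * n + c

open Classical in
/-- The set of the `n` with `u < n ≤ v` and `n ≡ r (mod q)` for which `a n² + b n + c` has a prime factor in `(s, t]`. -/
noncomputable def args (a b c : ℤ) (q r u v s t : ℕ) : Finset ℕ :=
  (Ioc u v).filter (fun n => n ≡ r [MOD q] ∧ ∃ p : ℕ, p.Prime ∧ s < p ∧ p ≤ t ∧ (p : ℤ) ∣ val a b c n)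

/-- The sum of the reciprocals of the primes in `(s, t]`. -/
noncomputable def recipSum (s t : ℕ) : ℝ := ∑ p ∈ (Ioc s t).filter Nat.Prime, 1 / (p : ℝ)

/-- The proportion `ℓ / 2 - ℓ² / 4`, where `ℓ = log (1 / max (3 / 2 - θ, 2 / 3))`; it is positive for `θ > 1 / 2`. -/
noncomputable def delta (θ : ℝ) : ℝ :=
  Real.log (1 / max (3 / 2 - θ) (2 / 3)) / 2 - Real.log (1 / max (3 / 2 - θ) (2 / 3)) ^ 2 / 4

open Classical in
/-- The number of the `n ≤ x`, `n ≡ r (mod q)`, with `λ(a n² + b n + c) = σ`. -/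
noncomputable def signCount (a b c : ℤ) (q r x : ℕ) (σ : ℤ) : ℕ :=
  #((Icc 1 x).filter (fun n => n ≡ r [MOD q] ∧ lam (val a b c n) = σ))

theorem args_eq (a b c : ℤ) (q r u v s t : ℕ) :
    args a b c q r u v s t = (Ioc u v).filter (fun n => n ≡ r [MOD q] ∧
      1 ≤ Pool.Agent.N791.C2.om s t (Pool.Agent.N792.fv a b c n).natAbs) := by
  classical
  unfold args
  refine filter_congr fun n hn => ?_
  refine and_congr Iff.rfl ?_
  have e : Pool.Agent.N792.fv a b c n = val a b c n := rfl
  rw [e]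
  unfold Pool.Agent.N791.C2.om
  rw [Nat.one_le_iff_ne_zero, ← Nat.pos_iff_ne_zero, card_pos]
  constructor
  · rintro ⟨p, h1, h2, h3, h4⟩
    refine ⟨p, mem_filter.2 ⟨Pool.Agent.N791.C2.mem_PP.2 ⟨⟨h2, h3⟩, h1⟩, ?_⟩⟩
    exact Int.natCast_dvd.1 h4
  · rintro ⟨p, hp⟩
    rw [mem_filter, Pool.Agent.N791.C2.mem_PP] at hp
    exact ⟨p, hp.1.2, hp.1.1.1, hp.1.1.2, Int.natCast_dvd.2 hp.2⟩

/-- **The functions of Liouville and Moebius at quadratic polynomials with small constant terms.**
Let `a > 0`, `b`, `q ≥ 1` and `r` be fixed.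

(1) Let `ε > 0`, `R` and `A` be fixed. For `x ≥ x0`, all `C` with `x^(1/2+ε) ≤ C ≤ x` and all `s`, `t` with
`x^(3/2+ε) ≤ C s`, `x^(2/3+ε) ≤ s` and `t ≤ x^(1-ε)`, all but at most `C / (log x)^A` of the `1 ≤ c ≤ C` have the
following property: for all `x / R ≤ u ≤ v ≤ x`, with `f(n) = a n² + b n + c` and the set `T` of the `u < n ≤ v`,
`n ≡ r (mod q)`, for which `f(n)` has a prime factor in `(s, t]`, the sums of `λ(f(n))` and of `μ(f(n))` over `T` are at
most `x / (log x)^A` in absolute value, and the number of the elements of `T` differs from `(v - u) / q * (Λ - Λ² / 2)`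
by at most `x / (log x)^A`, where `Λ` is the sum of `1 / p` over the primes in `(s, t]`.

(2) Let `θ > 1 / 2`, `η > 0` and `A` be fixed. For `x ≥ x0` and all `C` with `x^θ ≤ C ≤ x`, all but at most
`C / (log x)^A` of the `1 ≤ c ≤ C` have the following property: each of the two signs is the value of
`λ(a n² + b n + c)` for at least `(delta θ - η) x / q` of the `n ≤ x`, `n ≡ r (mod q)`. -/
theorem result (a : ℤ) (ha : 0 < a) (b : ℤ) (q r : ℕ) (hq : 1 ≤ q) :
    (∀ (ε : ℝ) (R A : ℕ), 0 < ε → ∃ x0 : ℕ, ∀ x : ℕ, x0 ≤ x → ∀ C s t : ℕ,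
      (x : ℝ) ^ (1 / 2 + ε) ≤ C → C ≤ x → (x : ℝ) ^ (3 / 2 + ε) ≤ C * s → (x : ℝ) ^ (2 / 3 + ε) ≤ s →
      (t : ℝ) ≤ (x : ℝ) ^ (1 - ε) →
      ∃ Ex ⊆ Icc 1 C, (#Ex : ℝ) ≤ C / Real.log x ^ A ∧ ∀ c ∈ Icc 1 C, c ∉ Ex →
        ∀ u v : ℕ, x ≤ R * u → u ≤ v → v ≤ x →
          |((∑ n ∈ args a b c q r u v s t, lam (val a b c n) : ℤ) : ℝ)| ≤ x / Real.log x ^ A ∧
          |((∑ n ∈ args a b c q r u v s t, mob (val a b c n) : ℤ) : ℝ)| ≤ x / Real.log x ^ A ∧
          |(#(args a b c q r u v s t) : ℝ) - ((v : ℝ) - u) / q * (recipSum s t - recipSum s t ^ 2 / 2)| ≤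
            x / Real.log x ^ A) ∧
    (∀ (θ η : ℝ) (A : ℕ), 1 / 2 < θ → 0 < η → 0 < delta θ ∧ ∃ x0 : ℕ, ∀ x : ℕ, x0 ≤ x → ∀ C : ℕ,
      (x : ℝ) ^ θ ≤ C → C ≤ x →
      ∃ Ex ⊆ Icc 1 C, (#Ex : ℝ) ≤ C / Real.log x ^ A ∧ ∀ c ∈ Icc 1 C, c ∉ Ex → ∀ σ : ℤ, (σ = 1 ∨ σ = -1) →
        (delta θ - η) * (x / q) ≤ signCount a b c q r x σ) := by
  classical
  constructor
  · intro ε R A hε
    have hm : min ε (1 / 100) ≤ ε := min_le_left _ _
    have hm0 : 0 < min ε (1 / 100) := lt_min hε (by norm_num)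
    obtain ⟨n0, h0⟩ := Pool.Agent.N791.C2.prog Pool.Agent.N791.C2.cls_lam a ha b q r hq (min ε (1 / 100)) hm0
      (min_le_right _ _) (max R 1) (A + 1) (le_max_right _ _)
    obtain ⟨n1, h1⟩ := Pool.Agent.N791.C2.prog Pool.Agent.N791.C2.cls_mob a ha b q r hq (min ε (1 / 100)) hm0
      (min_le_right _ _) (max R 1) (A + 1) (le_max_right _ _)
    have e1 : ∀ᶠ x : ℕ in Filter.atTop, (2 : ℝ) ≤ Real.log x := Pool.Agent.N792.Shp.log_ge _
    obtain ⟨n2, h2⟩ := Filter.eventually_atTop.1 e1
    refine ⟨max (max n0 n1) (max n2 1), fun x hx C s t hC1 hC2 hs1 hs2 ht => ?_⟩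
    have g0 : n0 ≤ x := ((le_max_left _ _).trans (le_max_left _ _)).trans hx
    have g1 : n1 ≤ x := ((le_max_right _ _).trans (le_max_left _ _)).trans hx
    have g2 : n2 ≤ x := ((le_max_left _ _).trans (le_max_right _ _)).trans hx
    have hx1 : (1 : ℝ) ≤ x := by
      have : 1 ≤ x := ((le_max_right _ _).trans (le_max_right _ _)).trans hx
      exact_mod_cast this
    have hL := h2 x g2
    set L := Real.log x with hLd
    have k1 := (Real.rpow_le_rpow_of_exponent_le hx1 (by linarith : 1 / 2 + min ε (1 / 100) ≤ 1 / 2 + ε)).trans hC1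
    have k2 := (Real.rpow_le_rpow_of_exponent_le hx1 (by linarith : 3 / 2 + min ε (1 / 100) ≤ 3 / 2 + ε)).trans hs1
    have k3 := (Real.rpow_le_rpow_of_exponent_le hx1 (by linarith : 2 / 3 + min ε (1 / 100) ≤ 2 / 3 + ε)).trans hs2
    have k4 := ht.trans (Real.rpow_le_rpow_of_exponent_le hx1 (by linarith : 1 - ε ≤ 1 - min ε (1 / 100)))
    obtain ⟨E1, p1, p2, p3⟩ := h0 x g0 C s t k2 k1 hC2 k3 k4
    obtain ⟨E2, q1, q2, q3⟩ := h1 x g1 C s t k2 k1 hC2 k3 k4
    have hLA : ∀ y : ℝ, 0 ≤ y → y / L ^ (A + 1) ≤ (1 / 2) * (y / L ^ A) := by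
      intro y hy
      have e2 : y / L ^ (A + 1) = (1 / L) * (y / L ^ A) := by rw [pow_succ]; field_simp
      rw [e2]
      apply mul_le_mul_of_nonneg_right _ (by positivity)
      exact one_div_le_one_div_of_le (by norm_num) hL
    have hxh := hLA x (Nat.cast_nonneg _)
    have hch := hLA C (Nat.cast_nonneg _)
    have hx0 : 0 ≤ (x : ℝ) / L ^ A := by positivity
    refine ⟨E1 ∪ E2, union_subset p1 q1, ?_, ?_⟩
    · have : (#(E1 ∪ E2) : ℝ) ≤ #E1 + #E2 := by exact_mod_cast card_union_le _ _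
      linarith
    · intro c hc hcE u v hu huv hvx
      rw [mem_union, not_or] at hcE
      have hu' : x ≤ max R 1 * u := hu.trans (Nat.mul_le_mul_right _ (le_max_left _ _))
      obtain ⟨d0, d1, d2⟩ := p3 c hc hcE.1 u v hu' huv hvx
      obtain ⟨_, d3, _⟩ := q3 c hc hcE.2 u v hu' huv hvx
      rw [args_eq a b c q r u v s t]
      refine ⟨?_, ?_, ?_⟩
      · have e2 : ((∑ n ∈ (Ioc u v).filter (fun n => n ≡ r [MOD q] ∧
            1 ≤ Pool.Agent.N791.C2.om s t (Pool.Agent.N792.fv a b c n).natAbs), lam (val a b c n) : ℤ) : ℝ) =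
            ∑ n ∈ (Ioc u v).filter (fun n => n ≡ r [MOD q] ∧
            1 ≤ Pool.Agent.N791.C2.om s t (Pool.Agent.N792.fv a b c n).natAbs),
              Pool.Agent.N791.C2.lam (Pool.Agent.N792.fv a b c n).natAbs := by
          push_cast
          refine sum_congr rfl fun n hn => ?_
          have hp := d0 n (mem_filter.1 hn).1
          have e3 : val a b c n = Pool.Agent.N792.fv a b c n := rfl
          unfold lam Pool.Agent.N791.C2.lam
          rw [e3, if_neg hp.ne']
          push_cast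
          rfl
        rw [e2]
        exact d1.trans (hxh.trans (by linarith))
      · have e2 : ((∑ n ∈ (Ioc u v).filter (fun n => n ≡ r [MOD q] ∧
            1 ≤ Pool.Agent.N791.C2.om s t (Pool.Agent.N792.fv a b c n).natAbs), mob (val a b c n) : ℤ) : ℝ) =
            ∑ n ∈ (Ioc u v).filter (fun n => n ≡ r [MOD q] ∧
            1 ≤ Pool.Agent.N791.C2.om s t (Pool.Agent.N792.fv a b c n).natAbs),
              Pool.Agent.N791.C2.mob (Pool.Agent.N792.fv a b c n).natAbs := by
          push_cast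
          exact sum_congr rfl fun n hn => rfl
        rw [e2]
        exact d3.trans (hxh.trans (by linarith))
      · exact d2.trans (hxh.trans (by linarith))
  · intro θ η A hθ hη
    refine ⟨?_, ?_⟩
    · have h1 : max (3 / 2 - θ) (2 / 3) < 1 := max_lt (by linarith) (by norm_num)
      have h2 : (2 / 3 : ℝ) ≤ max (3 / 2 - θ) (2 / 3) := le_max_right _ _
      unfold delta
      obtain ⟨α, hα⟩ : ∃ α : ℝ, α = max (3 / 2 - θ) (2 / 3) := ⟨_, rfl⟩
      rw [← hα] at h1 h2 ⊢
      have h3 : 0 < Real.log (1 / α) := Real.log_pos (by rw [lt_div_iff₀ (by linarith)]; linarith)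
      have h4 : Real.log (1 / α) ≤ 1 / 2 := by
        have h5 : 1 / α ≤ 3 / 2 := by rw [div_le_div_iff₀ (by linarith) (by norm_num)]; linarith
        have h6 := Real.log_le_sub_one_of_pos (show 0 < 1 / α by positivity)
        linarith
      nlinarith
    · obtain ⟨n0, h0⟩ := Pool.Agent.N791.C2.cor a ha b q r hq θ hθ η hη A
      refine ⟨n0, fun x hx C hC1 hC2 => ?_⟩
      obtain ⟨Ex, p1, p2, p3⟩ := h0 x hx C hC1 hC2
      refine ⟨Ex, p1, p2, fun c hc hcE σ hσ => ?_⟩
      have h1 := p3 c hc hcE (σ : ℝ) (by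
        rcases hσ with h | h
        · left; rw [h]; norm_num
        · right; rw [h]; norm_num)
      refine h1.trans ?_
      unfold signCount
      have h2 : (Ioc 0 x).filter (fun n => n ≡ r [MOD q] ∧ 0 < Pool.Agent.N792.fv a b c n ∧
          Pool.Agent.N791.C2.lam (Pool.Agent.N792.fv a b c n).natAbs = (σ : ℝ)) ⊆
          (Icc 1 x).filter (fun n => n ≡ r [MOD q] ∧ lam (val a b c n) = σ) := by
        intro n hn
        rw [mem_filter] at hn ⊢
        refine ⟨?_, hn.2.1, ?_⟩
        · have := mem_Ioc.1 hn.1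
          rw [mem_Icc]; omega
        · have e3 : val a b c n = Pool.Agent.N792.fv a b c n := rfl
          have h4 := hn.2.2.2
          unfold Pool.Agent.N791.C2.lam at h4
          unfold lam
          rw [e3, if_neg hn.2.2.1.ne']
          exact_mod_cast h4
      exact_mod_cast card_le_card h2

end Pool.Agent.Results.MP_22d6bb_nt.QuadraticsSmallConstants
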