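import Mathlib
import Pool.Agent.N791.U.L5

/-!
# The functions of Liouville and Moebius at `n² + 3 n - k`, `n² - k`, ... for almost all `k ≤ N^θ`, `θ > 1/2`

The coefficients `a > 0` and `b` are fixed; the constant terms `-k` are negative, so that the discriminants
`b² + 4 a k` are positive as for the polynomial `k² + 3 k + 1` of the problem. A prime value has `λ = μ = -1`; here the
distribution of the signs `λ` and `μ` is considered. For `N^(1/2+ε) ≤ K ≤ N` and almost all `k ≤ K`, both functions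
cancel on the arguments `n ≤ N` at which the value `a n² + b n - k` has a prime factor in `(s, t]`, where
`s ≥ max (N^(3/2+ε) / K, N^(2/3+ε))` and `t ≤ N^(1-ε)`; these arguments have a positive density, which is computed.
Hence each sign of the Liouville function has a positive proportion for almost all `k ≤ N^θ`, for every `θ > 1/2`.

Proof. With `n = m + r`, `r² ≈ 2 K`, one has `a n² + b n - k = a m² + b' m + c'` with `b' = b + 2 a r` and
`1 ≤ c' = a r² + b r - k ≤ 3 a K`, so that negative constant terms become positive at the price of a linear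
coefficient `b'` which is not bounded. A value `M` with `ω ≥ 1` prime factors in `(s, t]` has one or two of them, and
`λ(M) = - ∑_{p ∣ M} λ(M / p) (1 - ω(M / p) / 2)`. The sums over the cofactors are treated with the estimate of type II
of the project `N792` (Cauchy's inequality over the constant term, the prime and the roots, and a double large sieve
over frequencies and cofactors jointly), which needs the theorem of Siegel-Walfisz-Davenport for `λ` and `μ` and
holds uniformly for `b'² ≤ Λ K`; the same identity without `λ` gives the number of the arguments.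
-/

set_option autoImplicit false

namespace Pool.Agent.Results.MP_d57abb_nt.ParityNegativeConstants

open Finset

/-- The Liouville function on the integers, with the value `0` at `0`. -/
def lam (m : ℤ) : ℤ := if m = 0 then 0 else (-1) ^ ArithmeticFunction.cardFactors m.natAbs

/-- The Moebius function on the integers, `μ(-m) = μ(m)` and `μ(0) = 0`. -/
def mob (m : ℤ) : ℤ := ArithmeticFunction.moebius m.natAbs

/-- The value of the polynomial. -/
def val (a b c : ℤ) (n : ℕ) : ℤ := a * (n : ℤ) ^ 2 + b * n + c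

open Classical in
/-- The set of the `n` with `u < n ≤ v` for which `a n² + b n + c` has a prime factor in `(s, t]`. -/
noncomputable def args (a b c : ℤ) (u v s t : ℕ) : Finset ℕ :=
  (Ioc u v).filter (fun n => ∃ p : ℕ, p.Prime ∧ s < p ∧ p ≤ t ∧ (p : ℤ) ∣ val a b c n)

/-- The sum of the reciprocals of the primes in `(s, t]`. -/
noncomputable def recipSum (s t : ℕ) : ℝ := ∑ p ∈ (Ioc s t).filter Nat.Prime, 1 / (p : ℝ)

/-- The proportion `ℓ / 2 - ℓ² / 4`, where `ℓ = log (1 / max (3 / 2 - θ, 2 / 3))`; it is positive for `θ > 1 / 2`. -/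
noncomputable def delta (θ : ℝ) : ℝ :=
  Real.log (1 / max (3 / 2 - θ) (2 / 3)) / 2 - Real.log (1 / max (3 / 2 - θ) (2 / 3)) ^ 2 / 4

/-- The number of the `n ≤ N` with `λ(a n² + b n + c) = σ`. -/
def signCount (a b c : ℤ) (N : ℕ) (σ : ℤ) : ℕ := #((Icc 1 N).filter (fun n => lam (val a b c n) = σ))

theorem args_eq (a b c : ℤ) (u v s t : ℕ) :
    args a b c u v s t = (Ioc u v).filter (fun n => 1 ≤ Pool.Agent.N791.C2.om s t (Pool.Agent.N792.fv a b c n).natAbs) := by
  classical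
  unfold args
  refine filter_congr fun n hn => ?_
  have e : Pool.Agent.N792.fv a b c n = val a b c n := rfl
  rw [e]
  unfold Pool.Agent.N791.C2.om
  rw [Nat.one_le_iff_ne_zero, ← Nat.pos_iff_ne_zero, card_pos]
  constructor
  · rintro ⟨p, h1, h2, h3, h4⟩
    refine ⟨p, mem_filter.2 ⟨Pool.Agent.N791.C2.mem_PP.2 ⟨⟨h2, h3⟩, h1⟩, ?_⟩⟩
    exact Int.natCast_dvd.1 h4
  · rintro ⟨p, hp⟩
    rw [mem_filter, Pool.Agent.N791.C2.mem_PP] at hp
    exact ⟨p, hp.1.2, hp.1.1.1, hp.1.1.2, Int.natCast_dvd.2 hp.2⟩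

theorem delta_pos {θ : ℝ} (hθ : 1 / 2 < θ) : 0 < delta θ := by
  have h1 : max (3 / 2 - θ) (2 / 3) < 1 := max_lt (by linarith) (by norm_num)
  have h2 : (2 / 3 : ℝ) ≤ max (3 / 2 - θ) (2 / 3) := le_max_right _ _
  unfold delta
  obtain ⟨α, hα⟩ : ∃ α : ℝ, α = max (3 / 2 - θ) (2 / 3) := ⟨_, rfl⟩
  rw [← hα] at h1 h2 ⊢
  have h3 : 0 < Real.log (1 / α) := Real.log_pos (by rw [lt_div_iff₀ (by linarith)]; linarith)
  have h4 : Real.log (1 / α) ≤ 1 / 2 := by
    have h5 : 1 / α ≤ 3 / 2 := by rw [div_le_div_iff₀ (by linarith) (by norm_num)]; linarith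
    have h6 := Real.log_le_sub_one_of_pos (show 0 < 1 / α by positivity)
    linarith
  nlinarith

theorem sign_le (a b c : ℤ) (N : ℕ) {σ : ℤ} : (#((Ioc 0 N).filter (fun n => 0 < Pool.Agent.N792.fv a b c n ∧
    Pool.Agent.N791.C2.lam (Pool.Agent.N792.fv a b c n).natAbs = (σ : ℝ))) : ℝ) ≤ signCount a b c N σ := by
  unfold signCount
  have h2 : (Ioc 0 N).filter (fun n => 0 < Pool.Agent.N792.fv a b c n ∧
      Pool.Agent.N791.C2.lam (Pool.Agent.N792.fv a b c n).natAbs = (σ : ℝ)) ⊆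
      (Icc 1 N).filter (fun n => lam (val a b c n) = σ) := by
    intro n hn
    rw [mem_filter] at hn ⊢
    refine ⟨?_, ?_⟩
    · have := mem_Ioc.1 hn.1
      rw [mem_Icc]; omega
    · have e3 : val a b c n = Pool.Agent.N792.fv a b c n := rfl
      have h4 := hn.2.2
      unfold Pool.Agent.N791.C2.lam at h4
      unfold lam
      rw [e3, if_neg hn.2.1.ne']
      exact_mod_cast h4
  exact_mod_cast card_le_card h2

/-- from the statements for `λ` and for `μ` to the three bounds -/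
theorem three {a b c : ℤ} {ε : ℝ} {R A N C s t u v : ℕ} (hC : (N : ℝ) ^ (3 / 2 + ε) ≤ C * s)
    (hs : (N : ℝ) ^ (2 / 3 + ε) ≤ s) (ht : (t : ℝ) ≤ (N : ℝ) ^ (1 - ε)) (hu : N ≤ R * u) (huv : u ≤ v) (hv : v ≤ N)
    (h1 : Pool.Agent.N791.U.QLm Pool.Agent.N791.C2.lam a ε R A (s, t) N C b c)
    (h2 : Pool.Agent.N791.U.QLm Pool.Agent.N791.C2.mob a ε R A (s, t) N C b c) :
    |((∑ n ∈ args a b c u v s t, lam (val a b c n) : ℤ) : ℝ)| ≤ N / Real.log N ^ A ∧
    |((∑ n ∈ args a b c u v s t, mob (val a b c n) : ℤ) : ℝ)| ≤ N / Real.log N ^ A ∧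
    |(#(args a b c u v s t) : ℝ) - ((v : ℝ) - u) * (recipSum s t - recipSum s t ^ 2 / 2)| ≤ N / Real.log N ^ A := by
  classical
  obtain ⟨d0, d1, d2⟩ := h1 hC hs ht u v hu huv hv
  obtain ⟨_, d3, _⟩ := h2 hC hs ht u v hu huv hv
  rw [args_eq a b c u v s t]
  refine ⟨?_, ?_, ?_⟩
  · have e2 : ((∑ n ∈ (Ioc u v).filter (fun n =>
        1 ≤ Pool.Agent.N791.C2.om s t (Pool.Agent.N792.fv a b c n).natAbs), lam (val a b c n) : ℤ) : ℝ) =
        ∑ n ∈ (Ioc u v).filter (fun n =>
        1 ≤ Pool.Agent.N791.C2.om s t (Pool.Agent.N792.fv a b c n).natAbs),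
          Pool.Agent.N791.C2.lam (Pool.Agent.N792.fv a b c n).natAbs := by
      push_cast
      refine sum_congr rfl fun n hn => ?_
      have hp := d0 n (mem_filter.1 hn).1
      have e3 : val a b c n = Pool.Agent.N792.fv a b c n := rfl
      unfold lam Pool.Agent.N791.C2.lam
      rw [e3, if_neg hp.ne']
      push_cast
      rfl
    rw [e2]
    exact d1
  · have e2 : ((∑ n ∈ (Ioc u v).filter (fun n =>
        1 ≤ Pool.Agent.N791.C2.om s t (Pool.Agent.N792.fv a b c n).natAbs), mob (val a b c n) : ℤ) : ℝ) =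
        ∑ n ∈ (Ioc u v).filter (fun n =>
        1 ≤ Pool.Agent.N791.C2.om s t (Pool.Agent.N792.fv a b c n).natAbs),
          Pool.Agent.N791.C2.mob (Pool.Agent.N792.fv a b c n).natAbs := by
      push_cast
      exact sum_congr rfl fun n hn => rfl
    rw [e2]
    exact d3
  · exact d2

/-- **The functions of Liouville and Moebius at quadratic polynomials with small negative constant terms.**
Let `a > 0` and `b` be fixed.

(1) Let `ε > 0`, `R` and `A` be fixed. For `N ≥ N0`, all `K` with `N^(1/2+ε) ≤ K ≤ N` and all `s`, `t` with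
`N^(3/2+ε) ≤ K s`, `N^(2/3+ε) ≤ s` and `t ≤ N^(1-ε)`, all but at most `K / (log N)^A` of the `1 ≤ k ≤ K` have the
following property: for all `N / R ≤ u ≤ v ≤ N`, with `f(n) = a n² + b n - k` and the set `T` of the `u < n ≤ v`
for which `f(n)` has a prime factor in `(s, t]`, the sums of `λ(f(n))` and of `μ(f(n))` over `T` are at
most `N / (log N)^A` in absolute value, and the number of the elements of `T` differs from `(v - u) * (Λ - Λ² / 2)`
by at most `N / (log N)^A`, where `Λ` is the sum of `1 / p` over the primes in `(s, t]`.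

(2) Let `θ > 1 / 2`, `η > 0` and `A` be fixed. For `N ≥ N0` and all `K` with `N^θ ≤ K ≤ N`, all but at most
`K / (log N)^A` of the `1 ≤ k ≤ K` have the following property: each of the two signs is the value of
`λ(a n² + b n - k)` for at least `(delta θ - η) N` of the `n ≤ N`. -/
theorem result (a : ℤ) (ha : 0 < a) (b : ℤ) :
    (∀ (ε : ℝ) (R A : ℕ), 0 < ε → ∃ N0 : ℕ, ∀ N : ℕ, N0 ≤ N → ∀ K s t : ℕ,
      (N : ℝ) ^ (1 / 2 + ε) ≤ K → K ≤ N → (N : ℝ) ^ (3 / 2 + ε) ≤ K * s → (N : ℝ) ^ (2 / 3 + ε) ≤ s →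
      (t : ℝ) ≤ (N : ℝ) ^ (1 - ε) →
      ∃ Ex ⊆ Icc 1 K, (#Ex : ℝ) ≤ K / Real.log N ^ A ∧ ∀ k ∈ Icc 1 K, k ∉ Ex →
        ∀ u v : ℕ, N ≤ R * u → u ≤ v → v ≤ N →
          |((∑ n ∈ args a b (-(k : ℤ)) u v s t, lam (val a b (-(k : ℤ)) n) : ℤ) : ℝ)| ≤ N / Real.log N ^ A ∧
          |((∑ n ∈ args a b (-(k : ℤ)) u v s t, mob (val a b (-(k : ℤ)) n) : ℤ) : ℝ)| ≤ N / Real.log N ^ A ∧
          |(#(args a b (-(k : ℤ)) u v s t) : ℝ) - ((v : ℝ) - u) * (recipSum s t - recipSum s t ^ 2 / 2)| ≤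
            N / Real.log N ^ A) ∧
    (∀ (θ η : ℝ) (A : ℕ), 1 / 2 < θ → 0 < η → 0 < delta θ ∧ ∃ N0 : ℕ, ∀ N : ℕ, N0 ≤ N → ∀ K : ℕ,
      (N : ℝ) ^ θ ≤ K → K ≤ N →
      ∃ Ex ⊆ Icc 1 K, (#Ex : ℝ) ≤ K / Real.log N ^ A ∧ ∀ k ∈ Icc 1 K, k ∉ Ex → ∀ σ : ℤ, (σ = 1 ∨ σ = -1) →
        (delta θ - η) * N ≤ signCount a b (-(k : ℤ)) N σ) := by
  classical
  constructor
  · intro ε R A hε
    obtain ⟨n0, h0⟩ := Pool.Agent.N791.U.neg_lm Pool.Agent.N791.C2.cls_lam a ha b ε hε (max R 1) (A + 1)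
      (le_max_right _ _)
    obtain ⟨n1, h1⟩ := Pool.Agent.N791.U.neg_lm Pool.Agent.N791.C2.cls_mob a ha b ε hε (max R 1) (A + 1)
      (le_max_right _ _)
    have e1 : ∀ᶠ x : ℕ in Filter.atTop, (2 : ℝ) ≤ Real.log x := Pool.Agent.N792.Shp.log_ge _
    obtain ⟨n2, h2⟩ := Filter.eventually_atTop.1 e1
    refine ⟨n0 + n1 + n2, fun N hN K s t hK1 hK2 hs1 hs2 ht => ?_⟩
    have hL := h2 N (by omega)
    obtain ⟨E1, p1, p2, p3⟩ := h0 (s, t) N (by omega) K hK1 hK2
    obtain ⟨E2, q1, q2, q3⟩ := h1 (s, t) N (by omega) K hK1 hK2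
    set L := Real.log N with hLd
    have hLA : ∀ y : ℝ, 0 ≤ y → y / L ^ (A + 1) ≤ (1 / 2) * (y / L ^ A) := by
      intro y hy
      have e2 : y / L ^ (A + 1) = (1 / L) * (y / L ^ A) := by rw [pow_succ]; field_simp
      rw [e2]
      apply mul_le_mul_of_nonneg_right _ (by positivity)
      exact one_div_le_one_div_of_le (by norm_num) hL
    have hxh := hLA N (Nat.cast_nonneg _)
    have hch := hLA K (Nat.cast_nonneg _)
    have hx0 : 0 ≤ (N : ℝ) / L ^ A := by positivity
    refine ⟨E1 ∪ E2, union_subset p1 q1, ?_, ?_⟩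
    · have : (#(E1 ∪ E2) : ℝ) ≤ #E1 + #E2 := by exact_mod_cast card_union_le _ _
      linarith
    · intro k hk hkE u v hu huv hv
      rw [mem_union, not_or] at hkE
      obtain ⟨m1, m2, m3⟩ := three hs1 hs2 ht (hu.trans (Nat.mul_le_mul_right _ (le_max_left _ _))) huv hv
        (p3 k hk hkE.1) (q3 k hk hkE.2)
      rw [← hLd] at m1 m2 m3
      exact ⟨m1.trans (hxh.trans (by linarith)), m2.trans (hxh.trans (by linarith)), m3.trans (hxh.trans (by linarith))⟩
  · intro θ η A hθ hη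
    refine ⟨delta_pos hθ, ?_⟩
    obtain ⟨n0, h0⟩ := Pool.Agent.N791.U.neg_signs a ha b θ hθ η hη A
    refine ⟨n0, fun N hN K hK1 hK2 => ?_⟩
    obtain ⟨Ex, p1, p2, p3⟩ := h0 N hN K hK1 hK2
    refine ⟨Ex, p1, p2, fun k hk hkE σ hσ => ?_⟩
    have h1 := p3 k hk hkE (σ : ℝ) (by
      rcases hσ with h | h
      · left; rw [h]; norm_num
      · right; rw [h]; norm_num)
    exact h1.trans (sign_le a b (-(k : ℤ)) N)

end Pool.Agent.Results.MP_d57abb_nt.ParityNegativeConstants
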