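import Mathlib
import Pool.Agent.N791.E2.Fin3

/-!
# Values of quadratic polynomials with exactly two prime factors, for almost all `c ≤ C`, `x^(2/3+ε) ≤ C ≤ x`

The coefficients `a > 0` and `b` are fixed. For almost all `c ≤ C` the number of `m ≤ x` for which
`a m² + b m + c` is a product of two primes `p q` with `x^α₁ < p ≤ x^α₂` is given by the asymptotic
formula which the heuristics of Hardy and Littlewood predict, with the full constant `C(a, b, c)`. This
is a result beyond the parity barrier (the values counted have an even number of prime factors), for `C`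
as small as `x^(2/3 + ε)`, and in every interval `(u, v]` with `v ≤ x`.

Proof. The values `a m² + b m + c = p q` are counted with the weight `Λ` on `q`. For each block
`p ~ U` of primes the sum is a bilinear one, and no identity for the primes is needed. Cauchy's
inequality is applied to the sum over the triples of `c`, `p` and a root modulo `p`, `n` and
`n' = n + p e` being in the same class; for given `k = q`, `k' = (a n'² + b n' + c) / p` and `e` the
number `p` is the integer nearest to `(√k' - √k)² / (a e²)`, up to `O(C / k)`, and the resulting sum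
over `k ≡ k' (mod e)` with the phases `h √(k k') / (a e²)` is estimated by the double large sieve of
Bombieri and Iwaniec, which saves a power of `x` as long as `x^(4 + ε) ≤ C³ U²`, that is
`α₁ > 2 - 3 θ / 2` for `C = x^θ`; the frequency `h = 0` is treated with the theorem of Siegel and
Walfisz and the large sieve for the classes modulo `e`. This compares the weight `Λ` with its local
model `Λ_R`. The sums of `Λ_R` over the roots modulo `p` are evaluated, the mean values of the numbers
of roots modulo the primes `p` are treated by Gauss sums and fourth moments, and the products cut at a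
power of the logarithm are compared with the infinite products for almost all `c`. The weight
`1 / log q` is removed by a subdivision of the interval of `m` and of the range of `p`.
-/

set_option autoImplicit false

namespace Pool.Agent.Results.MP_a17b09_nt.ProductsOfTwoPrimes

open Finset Filter Topology

/-- the triple `(a, b, c)` is admissible: `a > 0`, `gcd(a, b, c) = 1`, the numbers `a + b` and `c` are
not both even, and the discriminant is not a square -/
def Admissible (a b c : ℤ) : Prop :=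
  0 < a ∧ (∀ d : ℤ, d ∣ a → d ∣ b → d ∣ c → IsUnit d) ∧ ¬ ((2 : ℤ) ∣ a + b ∧ (2 : ℤ) ∣ c) ∧
    ¬ IsSquare (b ^ 2 - 4 * a * c)

/-- the number of `u < m ≤ v` for which `a m² + b m + c = p q` with primes `p`, `q` and
`x^α₁ < p ≤ x^α₂` -/
noncomputable def twoPrimeCount (a b c : ℤ) (x : ℕ) (α₁ α₂ : ℝ) (u v : ℕ) : ℕ := by
  classical
  exact #((Ioc u v).filter (fun m : ℕ => ∃ p q : ℕ, p.Prime ∧ q.Prime ∧ (x : ℝ) ^ α₁ < p ∧
    (p : ℝ) ≤ (x : ℝ) ^ α₂ ∧ a * (m : ℤ) ^ 2 + b * m + c = (p : ℤ) * q))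

/-- `ε = 1` if `a + b` is even and `ε = 1 / 2` if `a + b` is odd -/
noncomputable def eps (a b : ℤ) : ℝ := if (2 : ℤ) ∣ a + b then 1 else 1 / 2

/-- the product `∏_{p > 2, p ∣ gcd(a, b)} p / (p - 1)` -/
noncomputable def gcdProd (a b : ℤ) : ℝ :=
  ∏ p ∈ (Int.gcd a b).primeFactors.filter (fun p => 2 < p), (p : ℝ) / (p - 1)

/-- the product `∏_{2 < p ≤ z, p ∤ a} (1 - (D / p) / (p - 1))`, where `D = b² - 4 a c` -/
noncomputable def partialC (a b c : ℤ) (z : ℕ) : ℝ :=
  ∏ p ∈ (Icc 3 z).filter (fun p : ℕ => p.Prime ∧ ¬ (p : ℤ) ∣ a),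
    (1 - (jacobiSym (b ^ 2 - 4 * a * c) p : ℝ) / (p - 1))

/-- **Products of two primes among the values of `a m² + b m + c` for almost all
`c ≤ C`, `C = x^θ`, `2/3 < θ ≤ 1`.** Let `a > 0`, `b`, `η > 0`, `θ ≤ 1` and `2 - 3 θ / 2 < α₁ ≤ α₂ < 1`
be fixed. For `x ≥ x0` and every `C` with `x^θ ≤ C ≤ x`, all but at most `η C` of the `1 ≤ c ≤ C` have
the following property: if `(a, b, c)` is admissible, the product `C(a, b, c)` converges to a number
`M = ε S ∏_{p > 2, p ∣ gcd(a, b)} p / (p - 1) > 0` and for all `u ≤ v ≤ x` the number of `u < m ≤ v` for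
which `a m² + b m + c = p q` with primes `p`, `q`, `x^α₁ < p ≤ x^α₂`, differs from
`M log (α₂ (2 - α₁) / (α₁ (2 - α₂))) (v - u) / log x` by at most `η M x / log x`. -/
theorem result (a : ℤ) (ha : 0 < a) (b : ℤ) (θ α₁ α₂ : ℝ) (hθ : θ ≤ 1) (h₁ : 2 - 3 * θ / 2 < α₁)
    (h₁₂ : α₁ ≤ α₂) (h₂ : α₂ < 1) (η : ℝ) (hη : 0 < η) :
    ∃ x0 : ℕ, ∀ x : ℕ, x0 ≤ x → ∀ C : ℕ, (x : ℝ) ^ θ ≤ C → C ≤ x →
    ∃ Ex ⊆ Icc 1 C, (#Ex : ℝ) ≤ η * C ∧ ∀ c ∈ Icc 1 C, c ∉ Ex → Admissible a b c →
      ∃ S : ℝ, 0 < S ∧ Tendsto (fun z => partialC a b c z) atTop (𝓝 S) ∧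
        ∀ u v : ℕ, u ≤ v → v ≤ x →
          |(twoPrimeCount a b c x α₁ α₂ u v : ℝ) -
            eps a b * S * gcdProd a b * Real.log (α₂ * (2 - α₁) / (α₁ * (2 - α₂))) * ((v : ℝ) - u) /
              Real.log x| ≤
          η * (eps a b * S * gcdProd a b * x / Real.log x) := by
  classical
  obtain ⟨x0, h⟩ := Pool.Agent.N791.E2.conclE_all a ha b θ α₁ α₂ hθ h₁ h₁₂ h₂ (η / 2) (by linarith)
  refine ⟨x0, fun x hx C hC1 hC2 => ?_⟩
  obtain ⟨Ex, hE1, hE2, hE3⟩ := h x hx C hC1 hC2
  refine ⟨Ex, hE1, hE2.trans ?_, fun c hc hcE hadm => ?_⟩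
  · have : (0 : ℝ) ≤ C := Nat.cast_nonneg _
    nlinarith
  obtain ⟨S, hS, hSt, hb⟩ := hE3 c hc hcE hadm
  refine ⟨S, hS, hSt, fun u v huv hvx => ?_⟩
  have h4 := hb u v huv hvx
  have hcount : Pool.Agent.N791.E2.Ec a b (Pool.Agent.N791.E2.fl α₁ x) (Pool.Agent.N791.E2.fl α₂ x) c u v =
      twoPrimeCount a b c x α₁ α₂ u v := by
    unfold Pool.Agent.N791.E2.Ec twoPrimeCount
    congr 1
    apply filter_congr
    intro m _
    simp only [Pool.Agent.N791.E2.lt_fl, Pool.Agent.N791.E2.le_fl, Nat.cast_mul]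
    rfl
  have heps : Pool.Agent.N792.eps a b = 2 * eps a b := by
    unfold Pool.Agent.N792.eps eps
    split_ifs <;> norm_num
  have hα : 0 < α₁ := by linarith
  have hα' : 0 < α₂ := by linarith
  have hPh : Pool.Agent.N791.E2.Ph α₂ - Pool.Agent.N791.E2.Ph α₁ =
      1 / 2 * Real.log (α₂ * (2 - α₁) / (α₁ * (2 - α₂))) := by
    unfold Pool.Agent.N791.E2.Ph
    rw [← mul_sub, ← Real.log_div (by apply ne_of_gt; apply div_pos <;> linarith)
      (by apply ne_of_gt; apply div_pos <;> linarith)]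
    congr 2
    have h5 : (2 - α₁) ≠ 0 := by intro h; linarith
    have h6 : (2 - α₂) ≠ 0 := by intro h; linarith
    field_simp
  rw [hcount, heps, hPh] at h4
  have e1 : 2 * eps a b * S * gcdProd a b * (1 / 2 * Real.log (α₂ * (2 - α₁) / (α₁ * (2 - α₂)))) *
      ((v : ℝ) - u) / Real.log x =
      eps a b * S * gcdProd a b * Real.log (α₂ * (2 - α₁) / (α₁ * (2 - α₂))) * ((v : ℝ) - u) /
              Real.log x := by ring
  have e2 : η / 2 * (2 * eps a b * S * gcdProd a b * x / Real.log x) =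
      η * (eps a b * S * gcdProd a b * x / Real.log x) := by ring
  rw [← e1, ← e2]
  exact h4

end Pool.Agent.Results.MP_a17b09_nt.ProductsOfTwoPrimes
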