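import Mathlib
import Pool.Agent.N791.U.PairP

/-!
# The Bateman-Horn formula for almost all quadratic polynomials of height `H`, for lengths up to `H^(12/5-ε)`

The leading coefficient `a > 0` is fixed. For 100 percent of the pairs of integers `|b|, |c| ≤ H` and every
length `N` with `H² ≤ N ≤ H^(12/5 - ε)` the number of the prime values of `f = a X² + b X + c` in every
interval `(u, v]` with `v ≤ N` is given by the formula of Bateman and Horn with the full constant `C_f`. So
the lengths may be much larger than the height: there are `4 H²` polynomials, and their values, of the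
size `N²`, may be as large as `H^(24/5 - 2 ε)`. The averages over all coefficients (Browning, Sofos and
Teräväinen, and the results for lengths up to `H / (log H)^B`) stop at or below the height, where the values are
linear forms in coefficients which are larger than the argument; beyond the height the values `f(n)`,
`n ≤ N`, `|b|, |c| ≤ H` are a sparse set of integers.

Proof. Completing the square, `f(m) = a n² + b₀ n + c₀` with `n = m + k`, `b = b₀ + 2 a k`, `0 ≤ b₀ < 2 a` and
`c₀ = c - a k² - b₀ k`: the pairs are a family of about `H²` constant terms `c₀`, mostly negative, each of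
which occurs a bounded number of times, except for few pairs. A second shift, by `H`, makes the constant
terms positive: `f(m) = a n² + b' n + c'` with `b'² ≤ 3 a · 2 a H²` and `1 ≤ c' ≤ 2 a H²`. For the family of the
`c' ≤ C = 2 a H²` (less than the spacing of the values) the formula holds for almost all `c'` if
`C ≥ x^(5/6 + ε)`: the values are sifted, Vaughan's identity is applied to the rough values, and the
bilinear sums `j k = f(n)`, `C j ≥ x^(3/2 + ε)`, are estimated by Cauchy's inequality over `c'`, `j` and the roots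
modulo `j` and by a double large sieve for the frequencies and the cofactors jointly. All this is done
uniformly for `b'² ≤ Λ C`; the term `b'² / (4 a)` only moves the windows of the Fourier expansion.
-/

set_option autoImplicit false

namespace Pool.Agent.Results.MP_51e72e_nt.QuadraticsBeyondHeight

open Finset Filter Topology Polynomial

/-- the polynomial `a X² + b X + c` -/
noncomputable def pol (a b c : ℤ) : ℤ[X] := C a * X ^ 2 + C b * X + C c

/-- The number of `u < n ≤ v` for which `|f(n)|` is prime. -/
noncomputable def primeCount (f : ℤ[X]) (u v : ℕ) : ℕ :=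
  ((Ioc u v).filter (fun n : ℕ => (f.eval (n : ℤ)).natAbs.Prime)).card

/-- The sum of `1 / log |f(n)|` over the `u < n ≤ v` with `|f(n)| ≥ 2`. -/
noncomputable def logSum (f : ℤ[X]) (u v : ℕ) : ℝ :=
  ∑ n ∈ (Ioc u v).filter (fun n : ℕ => 2 ≤ |f.eval (n : ℤ)|), 1 / Real.log |((f.eval (n : ℤ) : ℤ) : ℝ)|

/-- `ω_f(p)`: the number of residue classes of `n` modulo `p` with `f(n) ≡ 0 (mod p)`. -/
noncomputable def omega (f : ℤ[X]) (p : ℕ) : ℕ := ((range p).filter (fun n : ℕ => (p : ℤ) ∣ f.eval (n : ℤ))).card

/-- `C_f(z)`: the part of the product `C_f` over the primes `p ≤ z`. -/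
noncomputable def eulerProd (f : ℤ[X]) (z : ℕ) : ℝ :=
  ∏ p ∈ (Icc 1 z).filter Nat.Prime, (1 - (omega f p : ℝ) / p) / (1 - 1 / (p : ℝ))

/-- **The Bateman-Horn formula for 100 percent of the quadratic polynomials of height `H`, `H² ≤ N ≤ H^(12/5-ε)`.**
Let `a > 0`, `ε > 0` and `η > 0` be fixed. For `H ≥ H0` and every `N` with `H² ≤ N ≤ H^(12/5 - ε)`, all but at most
`η H²` of the pairs `q = (b, c)` of integers with `|b|, |c| ≤ H` have the following property: if
`f = a X² + b X + c` is irreducible and has no fixed prime divisor, the product `C_f` converges to a number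
`K > 0`, and for all `u ≤ v ≤ N` the number of `u < n ≤ v` with `|f(n)|` prime differs from
`K ∑_{u < n ≤ v} 1 / log |f(n)|` by at most `η K N / log N`. -/
theorem result (a : ℤ) (ha : 0 < a) (ε η : ℝ) (hε : 0 < ε) (hη : 0 < η) :
    ∃ H0 : ℕ, ∀ H : ℕ, H0 ≤ H → ∀ N : ℕ, H ^ 2 ≤ N → (N : ℝ) ≤ (H : ℝ) ^ (12 / 5 - ε) →
    ∃ Ex ⊆ Icc (-(H : ℤ)) H ×ˢ Icc (-(H : ℤ)) H, (#Ex : ℝ) ≤ η * H ^ 2 ∧
      ∀ q ∈ Icc (-(H : ℤ)) H ×ˢ Icc (-(H : ℤ)) H, q ∉ Ex → Irreducible (pol a q.1 q.2) →
      (∀ p : ℕ, p.Prime → omega (pol a q.1 q.2) p < p) →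
      ∃ K : ℝ, 0 < K ∧ Tendsto (fun z => eulerProd (pol a q.1 q.2) z) atTop (𝓝 K) ∧
        ∀ u v : ℕ, u ≤ v → v ≤ N →
          |(primeCount (pol a q.1 q.2) u v : ℝ) - K * logSum (pol a q.1 q.2) u v| ≤ η * (K * N / Real.log N) :=
  Pool.Agent.N791.U.PP.pair_page a ha ε η hε hη

end Pool.Agent.Results.MP_51e72e_nt.QuadraticsBeyondHeight
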