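import Pool.Agent.Y868.TC.S3

/-!
The quantitative Hypothesis H for systems of `k` polynomials of arbitrary degrees with prescribed constant terms and
all other coefficients prescribed as well, except for those of `X` and `X²`: for all but a proportion `log ^ (-U) x`
of the choices of these two coefficients in each of the polynomials the asymptotic formula holds, with a relative
error `log ^ (-U) x`, in all windows `(u, v] ⊆ [1, x]` at once, where `x` may be as large as the height divided by a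
power of its logarithm; and the number of prime values at the arguments in an arbitrary set `T` is given by the sieve
model of the primes.
-/

set_option autoImplicit false

namespace Pool.Agent.Results.MP_51e72e_nt.TwoCoefficients

open Finset
open Polynomial (X C)
open scoped Polynomial

variable {k : ℕ}

/-- The number of `m ∈ S` for which all `f_i(m)` are (positive) primes. -/
noncomputable def primeCount (f : Fin k → ℤ[X]) (S : Finset ℕ) : ℕ :=
  #(S.filter (fun m : ℕ => ∀ i, ((f i).eval (m : ℤ)).toNat.Prime))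

/-- `ω_f(p)`: the number of residue classes modulo `p` in which the product of the `f_i` vanishes modulo `p`. -/
def omega (f : Fin k → ℤ[X]) (p : ℕ) : ℕ :=
  #((range p).filter (fun n : ℕ => (p : ℤ) ∣ ∏ i, (f i).eval (n : ℤ)))

/-- `C_f(z)`: the part of the product `C_f` over the primes `p ≤ z`. -/
noncomputable def eulerProd (f : Fin k → ℤ[X]) (z : ℕ) : ℝ :=
  ∏ p ∈ (Icc 1 z).filter Nat.Prime, (1 - (omega f p : ℝ) / p) / (1 - 1 / (p : ℝ)) ^ k

/-- The sum of `1 / ∏ log f_i(m)` over `m ∈ S`. -/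
noncomputable def logSum (f : Fin k → ℤ[X]) (S : Finset ℕ) : ℝ :=
  ∑ m ∈ S, 1 / ∏ i, Real.log (((f i).eval (m : ℤ) : ℤ) : ℝ)

open Classical in
/-- The `m ∈ S` for which no `f_i(m)` has a prime factor `p ≤ z`. -/
noncomputable def rough (f : Fin k → ℤ[X]) (z : ℕ) (S : Finset ℕ) : Finset ℕ :=
  S.filter (fun m : ℕ => ∀ i, ∀ p : ℕ, p.Prime → p ≤ z → ¬ (p : ℤ) ∣ (f i).eval (m : ℤ))

/-- The polynomials `f_i = X (P_i + a_i X + b_i) + c_i`, where `e_i = (a_i, b_i)`. -/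
noncomputable def sys (P : Fin k → ℤ[X]) (c : Fin k → ℤ) (e : Fin k → ℕ × ℕ) (i : Fin k) : ℤ[X] :=
  X * (P i + C ((e i).1 : ℤ) * X + C ((e i).2 : ℤ)) + C (c i)

/-- The conclusion for one system `f`: in every window `(u, v] ⊆ [1, x]` on which all values are at least `3`, (1)
the number of `m ∈ T` with all `f_i(m)` prime is, up to an error `x / log ^ U x`, the sum of `1 / ∏ log f_i(m)` over
the `m ∈ T` for which the `f_i(m)` have no prime factor `p ≤ z`, divided by `∏_{p ≤ z} (1 - 1 / p) ^ k`; and (2) if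
`ω_f(p) < p` for all primes `p ≤ z`, then the number of all `m` with all `f_i(m)` prime is
`C_f(z) ∑ 1 / ∏ log f_i(m)` up to an error `C_f(z) x / log ^ U x`. -/
def Good (U x z : ℕ) (T : Finset ℕ) (f : Fin k → ℤ[X]) : Prop :=
  ∀ u v : ℕ, u < v → v ≤ x → (∀ i, ∀ m ∈ Ioc u v, 3 ≤ (f i).eval (m : ℤ)) →
    |(primeCount f (T ∩ Ioc u v) : ℝ) -
      logSum f (rough f z (T ∩ Ioc u v)) / (∏ p ∈ (Icc 1 z).filter Nat.Prime, (1 - 1 / (p : ℝ))) ^ k| ≤
      x / Real.log x ^ U ∧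
    ((∀ p : ℕ, p.Prime → p ≤ z → omega f p < p) →
      |(primeCount f (Ioc u v) : ℝ) - eulerProd f z * logSum f (Ioc u v)| ≤ eulerProd f z * x / Real.log x ^ U)

open Pool.Agent.Y868.TC in
lemma good_of (U x z : ℕ) (T : Finset ℕ) (P : Fin k → ℤ[X]) (c : Fin k → ℤ) (e : Fin k → ℕ × ℕ) (hk : 1 ≤ k)
    (h : ∀ u v : ℕ, u < v → v ≤ x → (∀ i, ∀ m ∈ Ioc u v, 3 ≤ (mem1 P c e i).eval (m : ℤ)) →
        |(cnt (mem1 P c e) (T ∩ Ioc u v) : ℝ) - (Pool.Agent.H373R2.T7.Vz z)⁻¹ ^ k *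
          ∑ m ∈ (T ∩ Ioc u v).filter (fun m : ℕ => ∀ i, ∀ p ∈ Pool.Agent.H373R2.T7.pz z, ¬ p ∣ ((mem1 P c e i).eval (m : ℤ)).toNat), lw (mem1 P c e) m| ≤
          x / Real.log x ^ U ∧
        ((∀ p ∈ Pool.Agent.H373R2.T7.pz z, Pool.Agent.TH204.WR.rho (∏ i, mem1 P c e i) 0 p < p) →
          |(cnt (mem1 P c e) (Ioc u v) : ℝ) - dsys z (mem1 P c e) * ∑ m ∈ Ioc u v, lw (mem1 P c e) m| ≤
          dsys z (mem1 P c e) * x / Real.log x ^ U)) : Good U x z T (sys P c e) := by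
  intro u v huv hvx h3
  have e0 : mem1 P c e = sys P c e := rfl
  obtain ⟨h1, h2⟩ := h u v huv hvx (by rw [e0]; exact h3)
  rw [e0] at h1 h2
  have elw : ∀ S : Finset ℕ, ∑ m ∈ S, lw (sys P c e) m = logSum (sys P c e) S := by
    intro S
    unfold lw logSum
    apply sum_congr rfl
    intro m _
    rw [prod_div_distrib, prod_const_one]
  have erho : ∀ p, Pool.Agent.TH204.WR.rho (∏ i, sys P c e i) 0 p = omega (sys P c e) p := by
    intro p
    unfold Pool.Agent.TH204.WR.rho omega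
    congr 1
    apply filter_congr
    intro n _
    rw [Polynomial.eval_prod, add_zero]
  have edsys : dsys z (sys P c e) = eulerProd (sys P c e) z := by
    unfold dsys Pool.Agent.TH204.WR.hh eulerProd
    rw [← mul_assoc, ← pow_succ, Nat.sub_add_cancel hk]
    unfold Pool.Agent.H373R2.T7.Vz
    rw [← prod_inv_distrib, ← prod_pow, ← prod_mul_distrib]
    unfold Pool.Agent.H373R2.T7.pz
    refine prod_congr rfl fun p _ => ?_
    rw [erho, inv_pow, div_eq_mul_inv _ ((1 - 1 / (p : ℝ)) ^ k), mul_comm]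
  refine ⟨?_, fun hp => ?_⟩
  · have er : (T ∩ Ioc u v).filter (fun m : ℕ => ∀ i, ∀ p ∈ Pool.Agent.H373R2.T7.pz z, ¬ p ∣ ((sys P c e i).eval (m : ℤ)).toNat) =
        rough (sys P c e) z (T ∩ Ioc u v) := by
      unfold rough
      ext m
      simp only [mem_filter]
      refine and_congr_right fun hm => ?_
      rw [mem_inter] at hm
      refine forall_congr' fun i => ?_
      have h6 : ∀ p : ℕ, (p ∣ ((sys P c e i).eval (m : ℤ)).toNat) ↔ (p : ℤ) ∣ (sys P c e i).eval (m : ℤ) := by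
        intro p
        have h5 := h3 i m hm.2
        rw [← Int.natCast_dvd_natCast, Int.toNat_of_nonneg (by omega)]
      constructor
      · intro h p hp hpz
        rw [← h6]
        exact h p (Pool.Agent.H373R2.T7.mem_pz.2 ⟨hpz, hp⟩)
      · intro h p hp
        rw [Pool.Agent.H373R2.T7.mem_pz] at hp
        rw [h6]
        exact h p hp.2 hp.1
    rw [er, elw] at h1
    have ec : (cnt (sys P c e) (T ∩ Ioc u v) : ℝ) = (primeCount (sys P c e) (T ∩ Ioc u v) : ℝ) := rfl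
    rw [ec] at h1
    rw [inv_pow, inv_mul_eq_div] at h1
    exact h1
  · have h4 := h2 (fun p hpz => by
      rw [erho]
      rw [Pool.Agent.H373R2.T7.mem_pz] at hpz
      exact hp p hpz.2 hpz.1)
    rw [edsys, elw] at h4
    exact h4

open Classical in
/-- Let `k ≥ 1`, `d ≥ 2` and `U, K ≥ 0`. There are `C₀`, `E₁` such that the following holds for all `E` and all large
`x`, if `log ^ E₁ x ≤ z ≤ log ^ E x`. Let `log ^ C₀ x ≤ D ≤ x ^ K` and `D x / log ^ K x ≤ B ≤ D x log ^ K x`. Let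
`P_1, …, P_k` be integer polynomials of degrees less than `d` with `|P_i(m)| ≤ B log ^ K x` for `1 ≤ m ≤ x`, let the
integers `c_i` satisfy `c_i ≠ 0` and `|c_i| ≤ B x log ^ K x`, and let `T` be a finite set. Then `Good` holds for the
systems `f_i = X (P_i + a_i X + b_i) + c_i` for all `(a_i, b_i)`, `1 ≤ a_i ≤ D`, `1 ≤ b_i ≤ B`, with at most
`(D B) ^ k / log ^ U x` exceptions. -/
theorem result (k d U K : ℕ) (hk : 1 ≤ k) (hd : 2 ≤ d) : ∃ C₀ E₁ : ℕ, ∀ E : ℕ, ∃ x₀ : ℕ, ∀ x : ℕ, x₀ ≤ x →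
    ∀ z : ℕ, Real.log x ^ E₁ ≤ z → (z : ℝ) ≤ Real.log x ^ E → ∀ D B : ℕ, Real.log x ^ C₀ ≤ D → (D : ℝ) ≤ (x : ℝ) ^ K →
    (D : ℝ) * x ≤ B * Real.log x ^ K → (B : ℝ) ≤ D * x * Real.log x ^ K →
    ∀ P : Fin k → ℤ[X], (∀ i, (P i).natDegree < d) →
    (∀ i, ∀ m ∈ Icc 1 x, ((|(P i).eval (m : ℤ)| : ℤ) : ℝ) ≤ B * Real.log x ^ K) →
    ∀ c : Fin k → ℤ, (∀ i, c i ≠ 0 ∧ ((|c i| : ℤ) : ℝ) ≤ B * x * Real.log x ^ K) → ∀ T : Finset ℕ,
    (#((Fintype.piFinset (fun _ : Fin k => Icc 1 D ×ˢ Icc 1 B)).filter (fun e => ¬ Good U x z T (sys P c e))) : ℝ) ≤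
      ((D : ℝ) * B) ^ k / Real.log x ^ U := by
  obtain ⟨C₀, E₁, h⟩ := Pool.Agent.Y868.TC.sys_final k d U K hk hd
  refine ⟨C₀, E₁, fun E => ?_⟩
  obtain ⟨x₀, h0⟩ := h E
  refine ⟨x₀, fun x hx z hz1 hz2 D B hD1 hD2 hDB hBD P hP hPB c hc T => ?_⟩
  obtain ⟨Bad, _, hB1, hB2⟩ := h0 x hx z hz1 hz2 D B hD1 hD2 hDB hBD P hP hPB c (fun i => (hc i).1) (fun i => (hc i).2) T
  refine le_trans ?_ hB1
  have : ((Fintype.piFinset (fun _ : Fin k => Icc 1 D ×ˢ Icc 1 B)).filter (fun e => ¬ Good U x z T (sys P c e))) ⊆ Bad := by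
    intro e he
    rw [mem_filter] at he
    by_contra hbad
    exact he.2 (good_of U x z T P c e hk (hB2 e he.1 hbad))
  exact_mod_cast card_le_card this

end Pool.Agent.Results.MP_51e72e_nt.TwoCoefficients
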